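import Pool.Agent.Helper86.Half.Count
import Pool.Graph.R_seed8.H925R.Szpiro.TwistCount

/-!
# Coprime pairs whose sum is at least a large power of the radical
-/

set_option autoImplicit false

namespace Pool.Agent.Helper86.Half

open Finset Pool.Agent.H785R2.ABC Pool.Agent.H785R2.ABC.Fin1

theorem one_le_rad (n : ℕ) : 1 ≤ rad n := by
  unfold rad
  exact Finset.prod_pos fun p hp => (Nat.prime_of_mem_primeFactors hp).pos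

/-- pairs with `rad ≤ R` and `R ^ κ₀ ≤ a + b` -/
theorem block_pairs : ∃ κ₀ : ℝ, 0 < κ₀ ∧ ∀ ε : ℝ, 0 < ε → ∃ C : ℝ, 0 < C ∧ ∀ X : ℕ, 1 ≤ X →
    ∀ R : ℝ, 2 ≤ R → ∀ S : Finset (ℕ × ℕ),
      (∀ t ∈ S, 0 < t.1 ∧ 0 < t.2 ∧ Nat.Coprime t.1 t.2 ∧ t.1 + t.2 ≤ X ∧
        (rad (t.1 * t.2 * (t.1 + t.2)) : ℝ) ≤ R ∧ R ^ κ₀ ≤ ((t.1 + t.2 : ℕ) : ℝ)) →
      (S.card : ℝ) ≤ C * (X : ℝ) ^ ε * R ^ ((1 : ℝ) / 2) := by
  classical
  obtain ⟨κ₀, hκ₀, h⟩ := block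
  refine ⟨κ₀, hκ₀, fun ε hε => ?_⟩
  obtain ⟨C, hC, hb⟩ := h ε hε
  refine ⟨2 * C, by positivity, fun X hX R hR S hS => ?_⟩
  have e : 2 * C * (X : ℝ) ^ ε * R ^ ((1 : ℝ) / 2) =
      2 * (C * (X : ℝ) ^ ε * R ^ ((1 : ℝ) / 2)) := by ring
  rw [e]
  refine Pool.Agent.H925R.Szpiro.card_le_two_halves S _ (fun t => 0 < t.1 ∧ 0 < t.2 ∧
    Nat.Coprime t.1 t.2 ∧ t.1 + t.2 ≤ X ∧
        (rad (t.1 * t.2 * (t.1 + t.2)) : ℝ) ≤ R ∧ R ^ κ₀ ≤ ((t.1 + t.2 : ℕ) : ℝ)) hS ?_ ?_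
  · rintro ⟨a, b⟩ ⟨h1, h2, h3, h4, h5, h6⟩
    simp only at h1 h2 h3 h4 h5 h6 ⊢
    refine ⟨h2, h1, h3.symm, by omega, ?_, ?_⟩
    · rw [mul_comm b a, add_comm b a]
      exact h5
    · rw [add_comm b a]
      exact h6
  · intro T hT
    have hinj : Set.InjOn (fun t : ℕ × ℕ => (t.1, t.2, t.1 + t.2)) (T : Set (ℕ × ℕ)) := by
      rintro ⟨a, b⟩ _ ⟨a', b'⟩ _ he
      simp only [Prod.mk.injEq] at he
      exact Prod.ext he.1 he.2.1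
    rw [← card_image_of_injOn hinj]
    refine hb X hX R hR _ (fun s hs => ?_)
    obtain ⟨t, ht, rfl⟩ := mem_image.1 hs
    obtain ⟨⟨h1, h2, h3, h4, h5, h6⟩, h7⟩ := hT t ht
    refine ⟨⟨h1, h2, by simp only; omega, rfl, h3, ?_, ?_⟩, h4, h7, h5, h6⟩
    · show Nat.Coprime t.1 (t.1 + t.2)
      simpa using h3
    · show Nat.Coprime t.2 (t.1 + t.2)
      simpa using h3.symm

/-- **the count**: pairs with `rad ≤ Y` and `c₀ rad ^ κ₀ ≤ a + b ≤ X` -/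
theorem count_half : ∃ κ₀ : ℝ, 0 < κ₀ ∧ ∀ c₀ ε : ℝ, 0 < c₀ → 0 < ε → ∃ C : ℝ, 0 < C ∧
    ∀ X : ℕ, 1 ≤ X → ∀ Y : ℝ, 1 ≤ Y → ∀ S : Finset (ℕ × ℕ),
      (∀ t ∈ S, 0 < t.1 ∧ 0 < t.2 ∧ Nat.Coprime t.1 t.2 ∧ t.1 + t.2 ≤ X ∧
        (rad (t.1 * t.2 * (t.1 + t.2)) : ℝ) ≤ Y ∧
        c₀ * (rad (t.1 * t.2 * (t.1 + t.2)) : ℝ) ^ κ₀ ≤ ((t.1 + t.2 : ℕ) : ℝ)) →
      (S.card : ℝ) ≤ C * (X : ℝ) ^ ε * Y ^ ((1 : ℝ) / 2) := by
  classical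
  obtain ⟨κ₀, hκ₀, h⟩ := block_pairs
  refine ⟨κ₀ + 1, by positivity, fun c₀ ε hc₀ hε => ?_⟩
  obtain ⟨C1, hC1, hb⟩ := h (ε / 2) (by positivity)
  obtain ⟨C2, hC2, ht⟩ := Pool.Agent.H925R.Szpiro.triv_pairs ε hε
  set R₀ : ℝ := max 2 (2 ^ (κ₀ + 1) / c₀) with hR₀
  have hR₀2 : 2 ≤ R₀ := le_max_left _ _
  set η : ℝ := ε / 6 with hη
  have hη0 : 0 < η := by positivity
  refine ⟨C2 * R₀ ^ ((2 : ℝ) / 3) + (1 + 2 / η) * (C1 * 2 ^ ((1 : ℝ) / 2)), by positivity, ?_⟩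
  intro X hX Y hY S hS
  have hX1 : (1 : ℝ) ≤ X := by exact_mod_cast hX
  have hX0 : (0 : ℝ) < X := by linarith
  have hYh : 1 ≤ Y ^ ((1 : ℝ) / 2) := Real.one_le_rpow hY (by norm_num)
  set ρ : ℕ × ℕ → ℕ := fun t => rad (t.1 * t.2 * (t.1 + t.2)) with hρ
  set S0 := S.filter (fun t => (ρ t : ℝ) ≤ R₀) with hS0
  set S1 := S.filter (fun t => ¬ (ρ t : ℝ) ≤ R₀) with hS1
  have hsplit : S.card = S0.card + S1.card := (card_filter_add_card_filter_not _).symm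
  have h0 : (S0.card : ℝ) ≤ C2 * R₀ ^ ((2 : ℝ) / 3) * (X : ℝ) ^ ε := by
    have h1 := ht X hX R₀ (by linarith) S0 (fun t ht => by
      obtain ⟨ht1, ht2⟩ := mem_filter.1 ht
      obtain ⟨q1, q2, q3, q4, q5, q6⟩ := hS t ht1
      exact ⟨q1, q2, q3, q4, ht2⟩)
    linarith [mul_comm (C2 * (X : ℝ) ^ ε) (R₀ ^ ((2 : ℝ) / 3)),
      mul_right_comm C2 ((X : ℝ) ^ ε) (R₀ ^ ((2 : ℝ) / 3))]
  -- dyadic decomposition
  set N : ℕ := Nat.log 2 (X ^ 3) + 1 with hN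
  have hmaps : ∀ t ∈ S1, Nat.log 2 (ρ t) ∈ range N := by
    intro t ht
    obtain ⟨ht1, ht2⟩ := mem_filter.1 ht
    obtain ⟨q1, q2, q3, q4, q5, q6⟩ := hS t ht1
    rw [mem_range, hN, Nat.lt_succ_iff]
    apply Nat.log_mono_right
    have h1 : ρ t ≤ t.1 * t.2 * (t.1 + t.2) :=
      Nat.le_of_dvd (by positivity) (Nat.prod_primeFactors_dvd _)
    calc ρ t ≤ t.1 * t.2 * (t.1 + t.2) := h1
      _ ≤ X * X * X := by gcongr <;> omega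
      _ = X ^ 3 := by ring
  have hfib : ∀ k ∈ range N, ((S1.filter (fun t => Nat.log 2 (ρ t) = k)).card : ℝ) ≤
      C1 * 2 ^ ((1 : ℝ) / 2) * (X : ℝ) ^ (ε / 2) * Y ^ ((1 : ℝ) / 2) := by
    intro k _
    rcases (S1.filter (fun t => Nat.log 2 (ρ t) = k)).eq_empty_or_nonempty with he | ⟨t0, ht0⟩
    · rw [he]
      simp only [card_empty, Nat.cast_zero]
      positivity
    set R : ℝ := 2 ^ (k + 1) with hR
    have hρb : ∀ t ∈ S1.filter (fun t => Nat.log 2 (ρ t) = k), R ≤ 2 * (ρ t : ℝ) ∧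
        (ρ t : ℝ) ≤ R := by
      intro t ht
      have h1 := (mem_filter.1 ht).2
      have h2 := Nat.pow_log_le_self 2 (x := ρ t) (by
        have h := one_le_rad (t.1 * t.2 * (t.1 + t.2))
        exact Nat.one_le_iff_ne_zero.mp h)
      have h3 := Nat.lt_pow_succ_log_self (b := 2) (by norm_num) (ρ t)
      rw [h1] at h2 h3
      have h2' : (2 : ℝ) ^ k ≤ ρ t := by exact_mod_cast h2
      have h3' : (ρ t : ℝ) < 2 ^ (k + 1) := by exact_mod_cast h3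
      refine ⟨?_, h3'.le⟩
      rw [hR, pow_succ]
      linarith
    have hR2 : 2 ≤ R := by
      rw [hR, pow_succ]
      have : (1 : ℝ) ≤ 2 ^ k := one_le_pow₀ (by norm_num)
      linarith
    have hR0 : 0 < R := by linarith
    have hRY : R ≤ 2 * Y := by
      have h1 := (hρb t0 ht0).1
      have h2 := (hS t0 (mem_filter.1 (mem_filter.1 ht0).1).1).2.2.2.2.1
      have h3 : (ρ t0 : ℝ) ≤ Y := h2
      linarith
    have h1 := hb X hX R hR2 (S1.filter (fun t => Nat.log 2 (ρ t) = k)) (fun t ht => by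
      have ht1 := (mem_filter.1 (mem_filter.1 ht).1).1
      have ht2 := (mem_filter.1 (mem_filter.1 ht).1).2
      obtain ⟨q1, q2, q3, q4, q5, q6⟩ := hS t ht1
      obtain ⟨g1, g2⟩ := hρb t ht
      refine ⟨q1, q2, q3, q4, g2, le_trans ?_ q6⟩
      -- `R ^ κ₀ ≤ c₀ ρ ^ (κ₀ + 1)`
      have g3 : R₀ < R := by
        push Not at ht2
        exact lt_of_lt_of_le ht2 g2
      have g4 : 2 ^ (κ₀ + 1) / c₀ ≤ R := (le_max_right _ _).trans g3.le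
      have g5 : (R / 2) ^ (κ₀ + 1) ≤ (ρ t : ℝ) ^ (κ₀ + 1) :=
        Real.rpow_le_rpow (by positivity) (by linarith) (by positivity)
      have g6 : R ^ κ₀ ≤ c₀ * (R / 2) ^ (κ₀ + 1) := by
        rw [Real.div_rpow hR0.le (by norm_num), Real.rpow_add_one hR0.ne']
        rw [div_le_iff₀ hc₀] at g4
        have g7 : (0 : ℝ) < 2 ^ (κ₀ + 1) := by positivity
        rw [mul_div_assoc', le_div_iff₀ g7]
        have g8 : 0 < R ^ κ₀ := by positivity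
        nlinarith
      exact g6.trans (mul_le_mul_of_nonneg_left g5 hc₀.le))
    refine h1.trans ?_
    have h2 : R ^ ((1 : ℝ) / 2) ≤ 2 ^ ((1 : ℝ) / 2) * Y ^ ((1 : ℝ) / 2) := by
      rw [← Real.mul_rpow (by norm_num) (by linarith)]
      exact Real.rpow_le_rpow hR0.le hRY (by norm_num)
    calc C1 * (X : ℝ) ^ (ε / 2) * R ^ ((1 : ℝ) / 2) ≤
          C1 * (X : ℝ) ^ (ε / 2) * (2 ^ ((1 : ℝ) / 2) * Y ^ ((1 : ℝ) / 2)) := by gcongr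
      _ = _ := by ring
  have hNle : (N : ℝ) ≤ (1 + 2 / η) * (X : ℝ) ^ (ε / 2) := by
    have h1 := log_le (X ^ 3) (Nat.one_le_pow _ _ hX) η hη0
    rw [hN]
    refine h1.trans (le_of_eq ?_)
    congr 1
    push_cast
    rw [← Real.rpow_natCast, ← Real.rpow_mul hX0.le]
    congr 1
    rw [hη]
    push_cast
    ring
  have h1 : (S1.card : ℝ) ≤ (1 + 2 / η) * (C1 * 2 ^ ((1 : ℝ) / 2)) * (X : ℝ) ^ ε *
      Y ^ ((1 : ℝ) / 2) := by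
    have e1 : S1.card = ∑ k ∈ range N, (S1.filter (fun t => Nat.log 2 (ρ t) = k)).card :=
      card_eq_sum_card_fiberwise (fun t ht => hmaps t ht)
    calc (S1.card : ℝ) = ∑ k ∈ range N, ((S1.filter (fun t => Nat.log 2 (ρ t) = k)).card : ℝ) := by
          rw [e1]; push_cast; rfl
      _ ≤ ∑ k ∈ range N, C1 * 2 ^ ((1 : ℝ) / 2) * (X : ℝ) ^ (ε / 2) * Y ^ ((1 : ℝ) / 2) :=
          sum_le_sum hfib
      _ = N * (C1 * 2 ^ ((1 : ℝ) / 2) * (X : ℝ) ^ (ε / 2) * Y ^ ((1 : ℝ) / 2)) := by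
          rw [sum_const, card_range, nsmul_eq_mul]
      _ ≤ ((1 + 2 / η) * (X : ℝ) ^ (ε / 2)) *
          (C1 * 2 ^ ((1 : ℝ) / 2) * (X : ℝ) ^ (ε / 2) * Y ^ ((1 : ℝ) / 2)) := by gcongr
      _ = (1 + 2 / η) * (C1 * 2 ^ ((1 : ℝ) / 2)) * ((X : ℝ) ^ (ε / 2) * (X : ℝ) ^ (ε / 2)) *
          Y ^ ((1 : ℝ) / 2) := by ring
      _ = _ := by
          rw [← Real.rpow_add hX0]
          congr 3
          ring
  rw [hsplit]
  push_cast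
  have h2 : C2 * R₀ ^ ((2 : ℝ) / 3) * (X : ℝ) ^ ε ≤
      C2 * R₀ ^ ((2 : ℝ) / 3) * (X : ℝ) ^ ε * Y ^ ((1 : ℝ) / 2) :=
    le_mul_of_one_le_right (by positivity) hYh
  calc (S0.card : ℝ) + S1.card ≤ C2 * R₀ ^ ((2 : ℝ) / 3) * (X : ℝ) ^ ε * Y ^ ((1 : ℝ) / 2) +
        (1 + 2 / η) * (C1 * 2 ^ ((1 : ℝ) / 2)) * (X : ℝ) ^ ε * Y ^ ((1 : ℝ) / 2) :=
        add_le_add (h0.trans h2) h1
    _ = _ := by ring

end Pool.Agent.Helper86.Half
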