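import Pool.Agent.Helper86.Half.Nb
import Pool.Graph.R_seed8.H705R2.ABC.Defs
import Pool.Graph.R_seed8.H785R2.ABC.Final

/-!
# The bound for the good cells
-/

set_option autoImplicit false

namespace Pool.Agent.Helper86.Half

open Finset Pool.Agent.H785R2.ABC Pool.Agent.H785R2.ABC.Fin1 Pool.Agent.H705R2.ABC
open Pool.Agent.Y913.Nb

/-- some side has a set of classes whose part is at least `M` and whose radical is at most the square
root of the radical, or consists of the last class -/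
def Good (K : ℕ) (M : ℝ) (s : ℕ × ℕ × ℕ) : Prop :=
  ∃ (r : Fin 3) (F : Finset (Fin (K + 1))), M ≤ (part K (num s r) F : ℝ) ∧
    (F = {Fin.last K} ∨ rd K (num s r) F ^ 2 ≤ rd K (num s r) univ)

theorem nb_of_not_good (hF : Basics) {K : ℕ} {M Y : ℝ} (hM : 1 < M) {s : ℕ × ℕ × ℕ}
    (hs : IsABCTriple s.1 s.2.1 s.2.2) (hg : ¬ Good K M s) (hr : ∀ r, (rad (num s r) : ℝ) ≤ Y)
    (hY : M ^ 3 ≤ Y) (r : Fin 3) : NB 2 Y (num s r) := by
  have hn := num_pos hs r
  unfold Good at hg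
  push Not at hg
  refine nb_of_bad (K := K) hF hn hM (fun F => ?_) ?_ (hr r) hY
  · by_contra hcon
    push Not at hcon
    obtain ⟨h1, h2⟩ := hcon
    have g1 := (hg r F h1).2
    have g2 := (hg r Fᶜ h2).2
    have h3 : rd K (num s r) F * rd K (num s r) Fᶜ = rd K (num s r) univ := by
      rw [hF.rd_mul, hF.rd_univ]
    rw [← h3] at g1 g2
    have p1 := hF.rd_pos K (num s r) F
    have p2 := hF.rd_pos K (num s r) Fᶜ
    set x := rd K (num s r) F
    set y := rd K (num s r) Fᶜ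
    have e1 : y < x := by
      rw [sq] at g1
      exact lt_of_mul_lt_mul_left g1 (Nat.zero_le _)
    have e2 : x < y := by
      rw [sq] at g2
      exact lt_of_mul_lt_mul_right g2 (Nat.zero_le _)
    omega
  · by_contra hcon
    push Not at hcon
    exact (hg r {Fin.last K} hcon).1 rfl

/-- the product of the three radicals -/
theorem rad3 {s : ℕ × ℕ × ℕ} (hs : IsABCTriple s.1 s.2.1 s.2.2) (p q r : Fin 3) (h1 : p ≠ q)
    (h2 : q ≠ r) (h3 : p ≠ r) :
    rad (num s r) * (rad (num s p) * rad (num s q)) = rad (s.1 * s.2.1 * s.2.2) := by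
  obtain ⟨a0, b0, c0, hab, k1, k2, k3⟩ := hs
  have hrad : ∀ x y : ℕ, Nat.Coprime x y → 0 < x → 0 < y → rad (x * y) = rad x * rad y := by
    intro x y h hx hy
    unfold rad
    rw [Nat.primeFactors_mul hx.ne' hy.ne', prod_union]
    exact Nat.Coprime.disjoint_primeFactors h
  have e : rad (s.1 * s.2.1 * s.2.2) = rad s.1 * rad s.2.1 * rad s.2.2 := by
    rw [hrad _ _ (Nat.Coprime.mul_left k2 k3) (Nat.mul_pos a0 b0) c0, hrad _ _ k1 a0 b0]
  rw [e]
  have n0 : num s 0 = s.1 := by simp [num]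
  have n1 : num s 1 = s.2.1 := by simp [num]
  have n2 : num s 2 = s.2.2 := by simp [num]
  fin_cases p <;> fin_cases q <;> fin_cases r <;>
    first
      | (exfalso; first | exact h1 rfl | exact h2 rfl | exact h3 rfl)
      | (simp only [Fin.zero_eta, Fin.mk_one, Fin.reduceFinMk, n0, n1, n2]; ring)

/-- the last class -/
theorem last_le (hF : Basics) {K : ℕ} {s : ℕ × ℕ × ℕ} (hs : IsABCTriple s.1 s.2.1 s.2.2)
    (j : Fin 3) : (rd K (num s j) {Fin.last K} : ℝ) ≤ (s.2.2 : ℝ) ^ (1 / ((K : ℝ) + 1)) := by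
  have h1 := hF.part_last K (num s j)
  have hn := num_pos hs j
  have h2 : part K (num s j) {Fin.last K} ≤ s.2.2 :=
    (Nat.le_of_dvd hn (hF.part_dvd K _ _ hn)).trans (num_le hs j)
  have h3 : ((rd K (num s j) {Fin.last K} : ℕ) : ℝ) ^ (K + 1) ≤ (s.2.2 : ℝ) := by
    exact_mod_cast h1.trans h2
  have h4 : (((rd K (num s j) {Fin.last K} : ℕ) : ℝ) ^ (K + 1)) ^ (1 / ((K : ℝ) + 1)) ≤
      (s.2.2 : ℝ) ^ (1 / ((K : ℝ) + 1)) := Real.rpow_le_rpow (by positivity) h3 (by positivity)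
  rw [← Real.rpow_natCast, ← Real.rpow_mul (Nat.cast_nonneg _)] at h4
  have e : ((K + 1 : ℕ) : ℝ) * (1 / ((K : ℝ) + 1)) = 1 := by
    push_cast
    field_simp
  rwa [e, Real.rpow_one] at h4

/-- the bound for a cell with a good member -/
theorem good_cell (hF : Basics) (hE : StmtEst) (K : ℕ) (ε : ℝ) (hε : 0 < ε) :
    ∃ D : ℝ, 0 < D ∧ ∀ T : Finset (ℕ × ℕ × ℕ), Cell K T → ∀ s ∈ T, ∀ R : ℝ, 1 ≤ R →
      (rad (s.1 * s.2.1 * s.2.2) : ℝ) ≤ R → Good K (R ^ ((3 : ℝ) / 2)) s →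
      (T.card : ℝ) ≤ D * (s.2.2 : ℝ) ^ (ε + 2 / ((K : ℝ) + 1)) * R ^ ((1 : ℝ) / 2) := by
  obtain ⟨D, hD, h⟩ := hE K ε hε
  refine ⟨2 * D, by positivity, fun T hT s hsT R hR hrad hg => ?_⟩
  have hs := hT.abc s hsT
  have hc1 : 1 ≤ s.2.2 := hs.2.2.1
  have hcR : (1 : ℝ) ≤ s.2.2 := by exact_mod_cast hc1
  have hc0 : (0 : ℝ) < s.2.2 := by linarith
  obtain ⟨r, F, hM, hgF⟩ := hg
  obtain ⟨p, q, hpq, hqr, hpr⟩ : ∃ p q : Fin 3, p ≠ q ∧ q ≠ r ∧ p ≠ r := by
    fin_cases r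
    · exact ⟨1, 2, by decide, by decide, by decide⟩
    · exact ⟨0, 2, by decide, by decide, by decide⟩
    · exact ⟨0, 1, by decide, by decide, by decide⟩
  have hb := h T hT s hsT p q r hpq hqr hpr F
  set L : ℝ := (s.2.2 : ℝ) ^ (1 / ((K : ℝ) + 1)) with hL
  have hL1 : 1 ≤ L := Real.one_le_rpow hcR (by positivity)
  have hL0 : 0 < L := by linarith
  have h3 := rad3 hs p q r hpq hqr hpr
  set x : ℝ := (rad (num s p) : ℝ) with hx
  set y : ℝ := (rad (num s q) : ℝ) with hy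
  set z : ℝ := (rad (num s r) : ℝ) with hz
  have rp : ∀ j, (1 : ℝ) ≤ (rad (num s j) : ℝ) := by
    intro j
    have := hF.rd_pos K (num s j) univ
    rw [hF.rd_univ] at this
    exact_mod_cast this
  have hx1 : 1 ≤ x := rp p
  have hy1 : 1 ≤ y := rp q
  have hz1 : 1 ≤ z := rp r
  have hxyz : z * (x * y) ≤ R := by
    have : (rad (num s r) : ℝ) * ((rad (num s p) : ℝ) * (rad (num s q) : ℝ)) =
        (rad (s.1 * s.2.1 * s.2.2) : ℝ) := by exact_mod_cast h3
    rw [hx, hy, hz, this]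
    exact hrad
  have hM0 : 0 < R ^ ((3 : ℝ) / 2) := by positivity
  have hpart : 0 < (part K (num s r) F : ℝ) := lt_of_lt_of_le hM0 hM
  -- the sides
  have side_le : ∀ j : Fin 3, (rad (num s j) : ℝ) ≤ R →
      Pool.Agent.H705R2.ABC.side K s r j F ≤ 2 * (rad (num s j) : ℝ) * L := by
    intro j hj
    unfold Pool.Agent.H705R2.ABC.side
    rw [hF.rd_univ]
    have e1 : (rad (num s j) : ℝ) ^ ((3 : ℝ) / 2) / part K (num s r) F ≤ 1 := by
      rw [div_le_one hpart]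
      exact (Real.rpow_le_rpow (Nat.cast_nonneg _) hj (by norm_num)).trans hM
    have e2 := last_le hF hs (K := K) j
    have e3 : (0 : ℝ) ≤ rad (num s j) := Nat.cast_nonneg _
    calc (rad (num s j) : ℝ) * rd K (num s j) {Fin.last K} *
          (1 + (rad (num s j) : ℝ) ^ ((3 : ℝ) / 2) / part K (num s r) F)
        ≤ (rad (num s j) : ℝ) * L * (1 + 1) := by
          gcongr
      _ = _ := by ring
  have hxR : x ≤ R := by nlinarith [mul_pos (by linarith : 0 < x) (by linarith : 0 < y)]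
  have hyR : y ≤ R := by nlinarith [mul_pos (by linarith : 0 < x) (by linarith : 0 < y)]
  have s1 := side_le p hxR
  have s2 := side_le q hyR
  have side_nonneg : ∀ j : Fin 3, 0 ≤ Pool.Agent.H705R2.ABC.side K s r j F := by
    intro j
    unfold Pool.Agent.H705R2.ABC.side
    positivity
  have hprod : (Pool.Agent.H705R2.ABC.side K s r p F * Pool.Agent.H705R2.ABC.side K s r q F) ^
      ((1 : ℝ) / 2) ≤ 2 * L * (x * y) ^ ((1 : ℝ) / 2) := by
    have e1 : Pool.Agent.H705R2.ABC.side K s r p F * Pool.Agent.H705R2.ABC.side K s r q F ≤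
        (2 * L) ^ 2 * (x * y) := by
      calc _ ≤ (2 * x * L) * (2 * y * L) :=
            mul_le_mul s1 s2 (side_nonneg q) (by positivity)
        _ = _ := by ring
    calc _ ≤ ((2 * L) ^ 2 * (x * y)) ^ ((1 : ℝ) / 2) :=
          Real.rpow_le_rpow (mul_nonneg (side_nonneg p) (side_nonneg q)) e1 (by norm_num)
      _ = 2 * L * (x * y) ^ ((1 : ℝ) / 2) := by
          rw [Real.mul_rpow (by positivity) (by positivity), ← Real.rpow_natCast,
            ← Real.rpow_mul (by positivity)]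
          norm_num
  have hrd : (rd K (num s r) F : ℝ) ≤ L * z ^ ((1 : ℝ) / 2) := by
    have hz2 : 1 ≤ z ^ ((1 : ℝ) / 2) := Real.one_le_rpow hz1 (by norm_num)
    rcases hgF with hF1 | hF1
    · rw [hF1]
      have := last_le hF hs (K := K) r
      calc (rd K (num s r) {Fin.last K} : ℝ) ≤ L * 1 := by rw [mul_one]; exact this
        _ ≤ _ := by gcongr
    · rw [hF.rd_univ] at hF1
      have e1 : ((rd K (num s r) F : ℕ) : ℝ) ^ 2 ≤ z := by
        rw [hz]
        exact_mod_cast hF1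
      have e2 : (((rd K (num s r) F : ℕ) : ℝ) ^ 2) ^ ((1 : ℝ) / 2) ≤ z ^ ((1 : ℝ) / 2) :=
        Real.rpow_le_rpow (by positivity) e1 (by norm_num)
      rw [← Real.rpow_natCast, ← Real.rpow_mul (Nat.cast_nonneg _)] at e2
      have e3 : ((2 : ℕ) : ℝ) * (1 / 2) = 1 := by norm_num
      rw [e3, Real.rpow_one] at e2
      calc (rd K (num s r) F : ℝ) ≤ 1 * z ^ ((1 : ℝ) / 2) := by rw [one_mul]; exact e2
        _ ≤ _ := by gcongr
  have hfin : z ^ ((1 : ℝ) / 2) * (x * y) ^ ((1 : ℝ) / 2) ≤ R ^ ((1 : ℝ) / 2) := by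
    rw [← Real.mul_rpow (by positivity) (by positivity)]
    exact Real.rpow_le_rpow (by positivity) hxyz (by norm_num)
  have hcε : 0 < (s.2.2 : ℝ) ^ ε := by positivity
  have hsn : 0 ≤ (Pool.Agent.H705R2.ABC.side K s r p F *
      Pool.Agent.H705R2.ABC.side K s r q F) ^ ((1 : ℝ) / 2) :=
    Real.rpow_nonneg (mul_nonneg (side_nonneg p) (side_nonneg q)) _
  calc (T.card : ℝ) ≤ D * (s.2.2 : ℝ) ^ ε * (rd K (num s r) F : ℝ) *
        (Pool.Agent.H705R2.ABC.side K s r p F * Pool.Agent.H705R2.ABC.side K s r q F) ^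
          ((1 : ℝ) / 2) := hb
    _ ≤ D * (s.2.2 : ℝ) ^ ε * (L * z ^ ((1 : ℝ) / 2)) * (2 * L * (x * y) ^ ((1 : ℝ) / 2)) := by
        gcongr
    _ = 2 * D * ((s.2.2 : ℝ) ^ ε * (L * L)) *
        (z ^ ((1 : ℝ) / 2) * (x * y) ^ ((1 : ℝ) / 2)) := by ring
    _ ≤ 2 * D * ((s.2.2 : ℝ) ^ ε * (L * L)) * R ^ ((1 : ℝ) / 2) := by gcongr
    _ = _ := by
        congr 2
        rw [hL, ← Real.rpow_add hc0, ← Real.rpow_add hc0]
        congr 1
        ring

end Pool.Agent.Helper86.Half
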