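import Pool.Agent.Helper86.Half.Cell
import Pool.Agent.Helper86.Half.Sig
import Pool.Graph.R_seed8.H705R2.ABC.Main
import Pool.Graph.R_seed8.Y913.Zm.Fn

/-!
# abc-triples whose sum is at least a large power of the radical
-/

set_option autoImplicit false

namespace Pool.Agent.Helper86.Half

open Finset Pool.Agent.H785R2.ABC Pool.Agent.H785R2.ABC.Fin1 Pool.Agent.H705R2.ABC
open Pool.Agent.Y913.Nb Pool.Agent.Y913.Zm

/-- the triples with `rad ≤ R` and `c ≥ R ^ κ₀` -/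
theorem block : ∃ κ₀ : ℝ, 0 < κ₀ ∧ ∀ ε : ℝ, 0 < ε → ∃ C : ℝ, 0 < C ∧ ∀ X : ℕ, 1 ≤ X →
    ∀ R : ℝ, 2 ≤ R → ∀ S : Finset (ℕ × ℕ × ℕ),
      (∀ s ∈ S, IsABCTriple s.1 s.2.1 s.2.2 ∧ s.2.2 ≤ X ∧ s.1 ≤ s.2.1 ∧
        (rad (s.1 * s.2.1 * s.2.2) : ℝ) ≤ R ∧ R ^ κ₀ ≤ (s.2.2 : ℝ)) →
      (S.card : ℝ) ≤ C * (X : ℝ) ^ ε * R ^ ((1 : ℝ) / 2) := by
  classical
  obtain ⟨K2, C2, hK2, hC2, hnt⟩ := nt_count 2 (1 / 10) (by norm_num)
  refine ⟨5 * K2, by positivity, fun ε hε => ?_⟩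
  set K : ℕ := ⌈8 / ε⌉₊ with hK
  have hKε : 2 / ((K : ℝ) + 1) ≤ ε / 4 := by
    have h1 : 8 / ε ≤ K := Nat.le_ceil _
    rw [div_le_iff₀ hε] at h1
    rw [div_le_iff₀ (by positivity)]
    nlinarith
  obtain ⟨D, hD, hgood⟩ := good_cell basics stmtEst' K (ε / 4) (by positivity)
  obtain ⟨C1, hC1, hsig⟩ := sig_count basics K (ε / 4) (by positivity)
  refine ⟨C1 * D + C2, by positivity, fun X hX R hR S hS => ?_⟩
  have hX1 : (1 : ℝ) ≤ X := by exact_mod_cast hX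
  have hX0 : (0 : ℝ) < X := by linarith
  have hR1 : 1 ≤ R := by linarith
  have hR0 : 0 < R := by linarith
  have hXε : 1 ≤ (X : ℝ) ^ ε := Real.one_le_rpow hX1 hε.le
  have hRh : 0 < R ^ ((1 : ℝ) / 2) := by positivity
  set M : ℝ := R ^ ((3 : ℝ) / 2) with hM
  have hM1 : 1 < M := Real.one_lt_rpow (by linarith) (by norm_num)
  set G := S.filter (fun s => Good K M s) with hG
  set B := S.filter (fun s => ¬ Good K M s) with hB
  have hsplit : S.card = G.card + B.card := (card_filter_add_card_filter_not _).symm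
  -- the good triples
  have hGc : (G.card : ℝ) ≤ C1 * D * (X : ℝ) ^ ε * R ^ ((1 : ℝ) / 2) := by
    have h1 := hsig X hX G (fun s hs => by
      have h2 := hS s (mem_filter.1 hs).1
      exact ⟨h2.1, h2.2.1⟩) (D * (X : ℝ) ^ (ε / 2) * R ^ ((1 : ℝ) / 2)) (fun T hT hsg => by
        rcases T.eq_empty_or_nonempty with h0 | ⟨s, hs⟩
        · rw [h0]
          simp only [card_empty, Nat.cast_zero]
          positivity
        have hTS : ∀ t ∈ T, t ∈ S := fun t ht => (mem_filter.1 (hT ht)).1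
        have hcell := cell_of basics K T (fun t ht => (hS t (hTS t ht)).1)
          (fun t ht => (hS t (hTS t ht)).2.2.1) hsg
        obtain ⟨q1, q2, q3, q4, q5⟩ := hS s (hTS s hs)
        have h3 := hgood T hcell s hs R hR1 q4 (mem_filter.1 (hT hs)).2
        refine h3.trans ?_
        have hc1 : (1 : ℝ) ≤ s.2.2 := by exact_mod_cast q1.2.2.1
        have h4 : (s.2.2 : ℝ) ^ (ε / 4 + 2 / ((K : ℝ) + 1)) ≤ (X : ℝ) ^ (ε / 2) := by
          calc (s.2.2 : ℝ) ^ (ε / 4 + 2 / ((K : ℝ) + 1)) ≤ (s.2.2 : ℝ) ^ (ε / 2) :=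
                Real.rpow_le_rpow_of_exponent_le hc1 (by linarith)
            _ ≤ (X : ℝ) ^ (ε / 2) := Real.rpow_le_rpow (by linarith) (by exact_mod_cast q2)
                (by positivity)
        gcongr)
    calc (G.card : ℝ) ≤ C1 * (X : ℝ) ^ (ε / 4) * (D * (X : ℝ) ^ (ε / 2) * R ^ ((1 : ℝ) / 2)) := h1
      _ = C1 * D * ((X : ℝ) ^ (ε / 4) * (X : ℝ) ^ (ε / 2)) * R ^ ((1 : ℝ) / 2) := by ring
      _ ≤ C1 * D * (X : ℝ) ^ ε * R ^ ((1 : ℝ) / 2) := by
          have : (X : ℝ) ^ (ε / 4) * (X : ℝ) ^ (ε / 2) ≤ (X : ℝ) ^ ε := by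
            rw [← Real.rpow_add hX0]
            exact Real.rpow_le_rpow_of_exponent_le hX1 (by linarith)
          gcongr
  -- the bad triples
  set Y : ℝ := R ^ (5 : ℝ) with hY
  have hY1 : 1 ≤ Y := Real.one_le_rpow hR1 (by norm_num)
  have hMY : M ^ 3 ≤ Y := by
    rw [hM, hY, ← Real.rpow_natCast, ← Real.rpow_mul hR0.le]
    exact Real.rpow_le_rpow_of_exponent_le hR1 (by norm_num)
  have hRY : R ≤ Y := by
    rw [hY]
    nth_rewrite 1 [← Real.rpow_one R]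
    exact Real.rpow_le_rpow_of_exponent_le hR1 (by norm_num)
  have hBc : (B.card : ℝ) ≤ C2 * R ^ ((1 : ℝ) / 2) := by
    have hinj : Set.InjOn (fun s : ℕ × ℕ × ℕ => (s.1, s.2.1)) (B : Set (ℕ × ℕ × ℕ)) := by
      rintro ⟨a, b, c⟩ h1 ⟨a', b', c'⟩ h2 he
      have g1 := (hS _ (mem_filter.1 (mem_coe.1 h1)).1).1.2.2.2.1
      have g2 := (hS _ (mem_filter.1 (mem_coe.1 h2)).1).1.2.2.2.1
      simp only [Prod.mk.injEq] at he g1 g2 ⊢
      omega
    have h1 := hnt Y hY1 (B.image (fun s : ℕ × ℕ × ℕ => (s.1, s.2.1))) (fun q hq => by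
      obtain ⟨s, hs, rfl⟩ := mem_image.1 hq
      obtain ⟨hs1, hs2⟩ := mem_filter.1 hs
      obtain ⟨q1, q2, q3, q4, q5⟩ := hS s hs1
      have hrr : ∀ r, (rad (num s r) : ℝ) ≤ Y := by
        intro r
        refine le_trans ?_ (q4.trans hRY)
        obtain ⟨p, q, hpq, hqr, hpr⟩ : ∃ p q : Fin 3, p ≠ q ∧ q ≠ r ∧ p ≠ r := by
          fin_cases r
          · exact ⟨1, 2, by decide, by decide, by decide⟩
          · exact ⟨0, 2, by decide, by decide, by decide⟩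
          · exact ⟨0, 1, by decide, by decide, by decide⟩
        have h3 := rad3 q1 p q r hpq hqr hpr
        have rp : ∀ j, 0 < rad (num s j) := by
          intro j
          have := basics.rd_pos K (num s j) univ
          rwa [basics.rd_univ] at this
        have h4 : rad (num s r) ≤ rad (s.1 * s.2.1 * s.2.2) := by
          rw [← h3]
          exact Nat.le_mul_of_pos_right _ (Nat.mul_pos (rp p) (rp q))
        exact_mod_cast h4
      have hnb := nb_of_not_good basics hM1 q1 hs2 hrr hMY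
      have n0 := hnb 0
      have n1 := hnb 1
      have n2 := hnb 2
      have e0 : num s 0 = s.1 := by simp [num]
      have e1 : num s 1 = s.2.1 := by simp [num]
      have e2 : num s 2 = s.2.2 := by simp [num]
      rw [e0] at n0
      rw [e1] at n1
      rw [e2] at n2
      obtain ⟨a0, b0, c0, hab, k1, k2, k3⟩ := q1
      refine ⟨a0, b0, k1, n0, n1, ?_, ?_⟩
      · simp only
        rw [hab]
        exact n2
      · simp only
        rw [hab, hY, ← Real.rpow_mul hR0.le]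
        exact q5)
    rw [card_image_of_injOn hinj] at h1
    refine h1.trans (le_of_eq ?_)
    rw [hY, ← Real.rpow_mul hR0.le]
    norm_num
  rw [hsplit]
  push_cast
  calc (G.card : ℝ) + B.card ≤ C1 * D * (X : ℝ) ^ ε * R ^ ((1 : ℝ) / 2) +
        C2 * R ^ ((1 : ℝ) / 2) := add_le_add hGc hBc
    _ ≤ C1 * D * (X : ℝ) ^ ε * R ^ ((1 : ℝ) / 2) + C2 * (X : ℝ) ^ ε * R ^ ((1 : ℝ) / 2) := by
        have : C2 * R ^ ((1 : ℝ) / 2) ≤ C2 * (X : ℝ) ^ ε * R ^ ((1 : ℝ) / 2) := by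
          calc C2 * R ^ ((1 : ℝ) / 2) = C2 * 1 * R ^ ((1 : ℝ) / 2) := by ring
            _ ≤ _ := by gcongr
        linarith
    _ = _ := by ring

end Pool.Agent.Helper86.Half
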