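import Pool.Graph.R_seed8.H785R2.ABC.Defs
import Pool.Graph.R_seed8.Y913.Nb.Rep

/-!
# Integers one side of every partition of which is small are almost powers
-/

set_option autoImplicit false

namespace Pool.Agent.Helper86.Half

open Finset Pool.Agent.H785R2.ABC Pool.Agent.Y913.Nb

/-- the classes below `k` -/
def pre (K k : ℕ) : Finset (Fin (K + 1)) := univ.filter fun i => (i : ℕ) < k

theorem pre_zero (K : ℕ) : pre K 0 = ∅ := by
  unfold pre
  ext i
  simp

theorem pre_top (K : ℕ) : pre K (K + 1) = univ := by
  unfold pre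
  ext i
  simp only [mem_filter, mem_univ, true_and, iff_true]
  exact i.isLt

theorem pre_succ (K : ℕ) (j : Fin (K + 1)) : pre K ((j : ℕ) + 1) = insert j (pre K j) := by
  unfold pre
  ext i
  simp only [mem_filter, mem_univ, true_and, mem_insert]
  constructor
  · intro h
    rcases Nat.lt_succ_iff_lt_or_eq.mp h with h | h
    · exact Or.inr h
    · exact Or.inl (Fin.ext h)
  · rintro (h | h)
    · rw [h]; omega
    · omega

theorem not_mem_pre (K : ℕ) (j : Fin (K + 1)) : j ∉ pre K j := by
  unfold pre
  simp

/-- a number `n` such that for every set `F` of classes of exponents the part of `n` for `F` or the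
one for the complement is less than `M`, is the product of a number less than `M ^ 3` and a power -/
theorem nb_of_bad (hF : Basics) {K n : ℕ} (hn : 1 ≤ n) {M Y : ℝ} (hM : 1 < M)
    (hbad : ∀ F : Finset (Fin (K + 1)), (part K n F : ℝ) < M ∨ (part K n Fᶜ : ℝ) < M)
    (hlast : (part K n {Fin.last K} : ℝ) < M) (hr : (rad n : ℝ) ≤ Y) (hY : M ^ 3 ≤ Y) :
    NB 2 Y n := by
  classical
  have hM0 : 0 < M := by linarith
  have hM12 : M ≤ M ^ 2 := by nlinarith
  have hM23 : M ^ 2 ≤ M ^ 3 := by nlinarith [sq_nonneg M]
  have hY1 : 1 ≤ Y := by linarith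
  have mk1 : ∀ m : ℕ, 0 < m → (m : ℝ) ≤ Y → NB 2 Y m := by
    intro m h0 hm
    refine ⟨![m, 1], ![1, 1], ?_, ?_⟩
    · intro i
      fin_cases i
      · exact ⟨h0, hm⟩
      · exact ⟨one_pos, by simpa using hY1⟩
    · simp
  by_cases hex : ∃ k : ℕ, k ≤ K + 1 ∧ M ≤ (part K n (pre K k) : ℝ)
  · have hspec := Nat.find_spec hex
    have hmin : ∀ m : ℕ, m < Nat.find hex → ¬ (m ≤ K + 1 ∧ M ≤ (part K n (pre K m) : ℝ)) :=
      fun m hm => Nat.find_min hex hm
    set k := Nat.find hex with hk
    have hk0 : k ≠ 0 := by
      intro h0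
      rw [h0, pre_zero] at hspec
      have h1 : part K n ∅ = 1 := by rw [hF.part_prod]; simp
      rw [h1] at hspec
      have := hspec.2
      norm_num at this
      linarith
    obtain ⟨j, hj⟩ : ∃ j : ℕ, k = j + 1 := Nat.exists_eq_succ_of_ne_zero hk0
    have hjK : j < K + 1 := by omega
    set i : Fin (K + 1) := ⟨j, hjK⟩ with hi
    have hij : (i : ℕ) = j := rfl
    have hlow : (part K n (pre K j) : ℝ) < M := by
      by_contra hcon
      push Not at hcon
      exact hmin j (by omega) ⟨by omega, hcon⟩
    have hhigh : (part K n (pre K k)ᶜ : ℝ) < M := by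
      rcases hbad (pre K k) with h | h
      · exact absurd hspec.2 (not_le.mpr h)
      · exact h
    have e1 : part K n (pre K k) = part K n {i} * part K n (pre K j) := by
      rw [hj]
      have := pre_succ K i
      rw [hij] at this
      rw [this, hF.part_prod K n (insert i (pre K j)), prod_insert (not_mem_pre K i),
        ← hF.part_prod K n (pre K j)]
    have e2 : n = part K n {i} * part K n (pre K j) * part K n (pre K k)ᶜ := by
      rw [← e1, hF.part_mul K n _ hn]
    have p1 := hF.part_pos K n {i}
    have p2 := hF.part_pos K n (pre K j)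
    have p3 := hF.part_pos K n (pre K k)ᶜ
    rcases Nat.lt_or_ge j K with hjl | hjl
    · -- a power
      have e3 := hF.part_single K n i hjl
      have hx : (rd K n {i} : ℝ) ≤ Y := by
        refine le_trans ?_ hr
        have h1 : rd K n {i} ∣ rad n := by
          rw [← hF.rd_univ K n]
          exact hF.rd_dvd K _ _ _ (subset_univ _)
        have h2 : 0 < rad n := by
          rw [← hF.rd_univ K n]
          exact hF.rd_pos K n _
        exact_mod_cast Nat.le_of_dvd h2 h1
      refine ⟨![part K n (pre K j) * part K n (pre K k)ᶜ, rd K n {i}], ![1, j + 1], ?_, ?_⟩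
      · intro t
        fin_cases t
        · refine ⟨Nat.mul_pos p2 p3, ?_⟩
          simp only [Fin.zero_eta, Matrix.cons_val_zero]
          push_cast
          have h1 : (part K n (pre K j) : ℝ) * (part K n (pre K k)ᶜ : ℝ) ≤ M * M :=
            mul_le_mul hlow.le hhigh.le (Nat.cast_nonneg _) hM0.le
          nlinarith
        · exact ⟨hF.rd_pos K n _, hx⟩
      · rw [Fin.prod_univ_two]
        simp only [Matrix.cons_val_zero, Matrix.cons_val_one, pow_one]
        rw [hij] at e3
        rw [← e3]
        nth_rewrite 1 [e2]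
        ring
    · have hjK' : i = Fin.last K := Fin.ext (by simp only [hij, Fin.val_last]; omega)
      rw [← hjK'] at hlast
      refine mk1 n hn ?_
      have h2 : (n : ℝ) = part K n {i} * part K n (pre K j) * part K n (pre K k)ᶜ := by
        exact_mod_cast e2
      rw [h2]
      have h3 : (part K n {i} : ℝ) * part K n (pre K j) * part K n (pre K k)ᶜ ≤ M * M * M := by
        gcongr
      nlinarith
  · push Not at hex
    have h1 := hex (K + 1) le_rfl
    rw [pre_top, hF.part_univ K n hn] at h1
    exact mk1 n hn (by linarith)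

end Pool.Agent.Helper86.Half
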